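import Pool.Agent.R970.WM.All

open MeasureTheory Set

namespace Pool.Agent.Results.MP_8d8e6a_an.EveryWeaklyMixing

open R970.WM

/-- For every weakly mixing interval exchange transformation `T = iet π lam` and every compact
connected group `G` with a continuous faithful finite dimensional unitary representation (that is,
every compact connected Lie group), for Haar almost every `g ∈ Gⁿ` the `G`-extension of `T` by the
simple function `g` is weakly mixing. -/
theorem result (G : Type) [Group G] [TopologicalSpace G] [IsTopologicalGroup G] [CompactSpace G]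
    [ConnectedSpace G] [T2Space G] [SecondCountableTopology G] [MeasurableSpace G] [BorelSpace G]
    (ν : Measure G) [IsProbabilityMeasure ν] [ν.IsHaarMeasure]
    (W : Type) [NormedAddCommGroup W] [InnerProductSpace ℂ W] [FiniteDimensional ℂ W]
    (ρ : G →* (W ≃ₗᵢ[ℂ] W)) (hρ : Continuous (fun p : G × W => ρ p.1 p.2))
    (hinj : Function.Injective ρ)
    (n : ℕ) [NeZero n] (hn : 2 ≤ n) (π : Equiv.Perm (Fin n)) (lam : Fin n → ℝ)
    (hpos : ∀ k, 0 < lam k) (hsum : ∑ k, lam k = 1) (hwm : WeakMix (iet π lam) U) :
    ∀ᵐ g ∂(Measure.pi (fun _ : Fin n => ν)), WeakMix (skewG (iet π lam) (idx lam) g) (U.prod ν) :=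
  final G ν W ρ hρ hinj n hn π lam hpos hsum hwm

end Pool.Agent.Results.MP_8d8e6a_an.EveryWeaklyMixing
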